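import Pool.Agent.W890.SF.Stm

/-! Project SAM (owner helper890), part DI3: vertices of nearly full degree. -/

set_option autoImplicit false

namespace Pool.Agent.W735.SAM.DI3

open Finset Pool.Agent.W890.SF

/-- telescoping bounds for binomial coefficients -/
theorem tele (j p q : ℕ) (h : p ≤ q) :
    ((q : ℝ) - p) * ((p.choose j : ℕ) : ℝ) ≤ ((q.choose (j + 1) : ℕ) : ℝ) - ((p.choose (j + 1) : ℕ) : ℝ) ∧
    ((q.choose (j + 1) : ℕ) : ℝ) - ((p.choose (j + 1) : ℕ) : ℝ) ≤ ((q : ℝ) - p) * ((q.choose j : ℕ) : ℝ) := by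
  induction q, h using Nat.le_induction with
  | base => simp
  | succ q hq ih =>
    obtain ⟨h1, h2⟩ := ih
    have e : (((q + 1).choose (j + 1) : ℕ) : ℝ) = ((q.choose j : ℕ) : ℝ) + ((q.choose (j + 1) : ℕ) : ℝ) := by
      rw [Nat.choose_succ_succ]; push_cast; ring
    have m1 : ((p.choose j : ℕ) : ℝ) ≤ ((q.choose j : ℕ) : ℝ) := by
      exact_mod_cast Nat.choose_le_choose j hq
    have m2 : ((q.choose j : ℕ) : ℝ) ≤ (((q + 1).choose j : ℕ) : ℝ) := by
      exact_mod_cast Nat.choose_le_choose j (Nat.le_succ q)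
    have hqp : (0 : ℝ) ≤ (q : ℝ) - p := by
      have : (p : ℝ) ≤ q := by exact_mod_cast hq
      linarith
    have hc0 : (0 : ℝ) ≤ ((q.choose j : ℕ) : ℝ) := by positivity
    constructor
    · rw [e]; push_cast; nlinarith
    · rw [e]; push_cast
      have := mul_le_mul_of_nonneg_left m2 hqp
      nlinarith

theorem card_mem {n : ℕ} (k : ℕ) (hk : 1 ≤ k) (v : Fin n) :
    ((((univ : Finset (Fin n)).powersetCard k).filter (fun e => v ∈ e)).card) = (n - 1).choose (k - 1) := by
  have h1 := Finset.card_filter_add_card_filter_not (s := (univ : Finset (Fin n)).powersetCard k)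
    (fun e => v ∈ e)
  have h2 : (((univ : Finset (Fin n)).powersetCard k).filter (fun e => ¬ v ∈ e)) =
      ((univ : Finset (Fin n)).erase v).powersetCard k := by
    ext e
    simp only [mem_filter, mem_powersetCard, subset_univ, true_and]
    constructor
    · rintro ⟨h, h'⟩
      exact ⟨fun x hx => mem_erase.2 ⟨fun hh => h' (hh ▸ hx), mem_univ _⟩, h⟩
    · rintro ⟨h, h'⟩
      exact ⟨h', fun hx => (mem_erase.1 (h hx)).1 rfl⟩
  rw [h2, card_powersetCard, card_powersetCard, card_erase_of_mem (mem_univ v), card_univ,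
    Fintype.card_fin] at h1
  have hn : 1 ≤ n := by have := v.2; omega
  obtain ⟨m, rfl⟩ : ∃ m, n = m + 1 := ⟨n - 1, by omega⟩
  obtain ⟨j, rfl⟩ : ∃ j, k = j + 1 := ⟨k - 1, by omega⟩
  have h3 := Nat.choose_succ_succ m j
  simp only [Nat.add_sub_cancel] at h1 ⊢
  rw [Nat.succ_eq_add_one, Nat.succ_eq_add_one] at h3
  omega

theorem card_disj {n : ℕ} (k : ℕ) (S : Finset (Fin n)) :
    ((((univ : Finset (Fin n)).powersetCard k).filter (fun e => Disjoint e S)).card) =
      (n - S.card).choose k := by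
  have h2 : (((univ : Finset (Fin n)).powersetCard k).filter (fun e => Disjoint e S)) =
      (univ \ S).powersetCard k := by
    ext e
    simp only [mem_filter, mem_powersetCard, subset_univ, true_and]
    constructor
    · rintro ⟨h, h'⟩
      exact ⟨fun x hx => mem_sdiff.2 ⟨mem_univ _, fun hh => (Finset.disjoint_left.1 h' hx) hh⟩, h⟩
    · rintro ⟨h, h'⟩
      exact ⟨h', Finset.disjoint_left.2 fun x hx => (mem_sdiff.1 (h hx)).2⟩
  rw [h2, card_powersetCard, card_sdiff_of_subset (subset_univ S), card_univ, Fintype.card_fin]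

/-- the counting inequality -/
theorem counting {n : ℕ} (k : ℕ) (hk : 1 ≤ k) (F : Finset (Finset (Fin n))) (hF : Unif k F)
    (S : Finset (Fin n)) :
    ∑ v ∈ S, ((((n - 1).choose (k - 1) : ℕ) : ℝ) - (dg F v : ℝ)) ≤
      k * (((n.choose k : ℕ) : ℝ) - (((n - S.card).choose k : ℕ) : ℝ) - (F.card : ℝ) +
        ((F.filter (fun e => Disjoint e S)).card : ℝ)) := by
  classical
  set K := (univ : Finset (Fin n)).powersetCard k with hK
  have hFK : F ⊆ K := by
    intro e he
    rw [hK, mem_powersetCard]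
    exact ⟨subset_univ _, hF e he⟩
  set N := K \ F with hN
  have hsplit : ∀ (P : Finset (Fin n) → Prop) [DecidablePred P],
      (F.filter P).card + (N.filter P).card = (K.filter P).card := by
    intro P _
    rw [hN, ← card_union_of_disjoint]
    · congr 1
      ext e
      simp only [mem_union, mem_filter, mem_sdiff]
      constructor
      · rintro (⟨h, h'⟩ | ⟨⟨h, _⟩, h'⟩)
        · exact ⟨hFK h, h'⟩
        · exact ⟨h, h'⟩
      · rintro ⟨h, h'⟩
        by_cases hh : e ∈ F
        · exact Or.inl ⟨hh, h'⟩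
        · exact Or.inr ⟨⟨h, hh⟩, h'⟩
    · rw [Finset.disjoint_left]
      intro e he he'
      exact (mem_sdiff.1 (mem_filter.1 he').1).2 (mem_filter.1 he).1
  have hM : ∀ v : Fin n, (((n - 1).choose (k - 1) : ℕ) : ℝ) - (dg F v : ℝ) =
      ((N.filter (fun e => v ∈ e)).card : ℝ) := by
    intro v
    have h := hsplit (fun e => v ∈ e)
    rw [hK, card_mem k hk v] at h
    rw [dg, ← h]; push_cast; ring
  have hsum : ∑ v ∈ S, (N.filter (fun e => v ∈ e)).card ≤
      k * (N.filter (fun e => ¬ Disjoint e S)).card := by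
    have e1 : ∑ v ∈ S, (N.filter (fun e => v ∈ e)).card = ∑ e ∈ N, (e ∩ S).card := by
      simp only [card_filter]
      rw [sum_comm]
      apply sum_congr rfl
      intro e _
      rw [← card_filter]
      congr 1
      ext x
      simp only [mem_filter, mem_inter]
      tauto
    rw [e1, ← sum_filter_add_sum_filter_not N (fun e => ¬ Disjoint e S)]
    have z : ∑ e ∈ N.filter (fun e => ¬ ¬ Disjoint e S), (e ∩ S).card = 0 := by
      apply sum_eq_zero
      intro e he
      have := (mem_filter.1 he).2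
      rw [not_not] at this
      rw [Finset.disjoint_iff_inter_eq_empty.1 this]; rfl
    rw [z, add_zero, mul_comm]
    rw [← smul_eq_mul]
    apply sum_le_card_nsmul
    intro e he
    have h1 : e ∈ K := (mem_sdiff.1 (mem_filter.1 he).1).1
    rw [hK, mem_powersetCard] at h1
    calc (e ∩ S).card ≤ e.card := card_le_card inter_subset_left
      _ = k := h1.2
  have hnd : ((N.filter (fun e => ¬ Disjoint e S)).card : ℝ) =
      ((n.choose k : ℕ) : ℝ) - (((n - S.card).choose k : ℕ) : ℝ) - (F.card : ℝ) +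
        ((F.filter (fun e => Disjoint e S)).card : ℝ) := by
    have a1 := Finset.card_filter_add_card_filter_not (s := K) (fun e => Disjoint e S)
    have a2 := Finset.card_filter_add_card_filter_not (s := F) (fun e => Disjoint e S)
    have a3 := hsplit (fun e => ¬ Disjoint e S)
    have a4 : (K.filter (fun e => Disjoint e S)).card = (n - S.card).choose k := card_disj k S
    have a5 : K.card = n.choose k := by rw [hK, card_powersetCard, card_univ, Fintype.card_fin]
    rw [a4, a5] at a1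
    have b1 : (((n - S.card).choose k : ℕ) : ℝ) + ((K.filter (fun e => ¬ Disjoint e S)).card : ℝ) =
      ((n.choose k : ℕ) : ℝ) := by exact_mod_cast a1
    have b2 : ((F.filter (fun e => Disjoint e S)).card : ℝ) + ((F.filter (fun e => ¬ Disjoint e S)).card : ℝ) =
      (F.card : ℝ) := by exact_mod_cast a2
    have b3 : ((F.filter (fun e => ¬ Disjoint e S)).card : ℝ) + ((N.filter (fun e => ¬ Disjoint e S)).card : ℝ) =
      ((K.filter (fun e => ¬ Disjoint e S)).card : ℝ) := by exact_mod_cast a3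
    linarith
  calc ∑ v ∈ S, ((((n - 1).choose (k - 1) : ℕ) : ℝ) - (dg F v : ℝ))
      = ((∑ v ∈ S, (N.filter (fun e => v ∈ e)).card : ℕ) : ℝ) := by
        push_cast
        exact sum_congr rfl fun v _ => hM v
    _ ≤ ((k * (N.filter (fun e => ¬ Disjoint e S)).card : ℕ) : ℝ) := by exact_mod_cast hsum
    _ = _ := by rw [Nat.cast_mul, hnd]

/-- lower bound for binomial coefficients -/
theorem chlow (n j m : ℕ) (h : n + 4 * j ≤ 4 * m + 4) :
    ((n : ℝ) / 4) ^ j / (j.factorial : ℝ) ≤ ((m.choose j : ℕ) : ℝ) := by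
  refine le_trans ?_ (Nat.pow_le_choose (α := ℝ) j m)
  apply div_le_div_of_nonneg_right _ (by positivity)
  apply pow_le_pow_left₀ (by positivity)
  have : n ≤ 4 * (m + 1 - j) := by omega
  have h2 : (n : ℝ) ≤ 4 * ((m + 1 - j : ℕ) : ℝ) := by exact_mod_cast this
  linarith

theorem di3 : S_DI3 := by
  intro k hk x0 γ hx0 hγ
  set j := k - 1 with hj
  set c : ℝ := (1 / 4) ^ j / (j.factorial : ℝ) with hc
  have hc0 : 0 < c := by rw [hc]; positivity
  have hk0 : (0 : ℝ) < k := by exact_mod_cast (by omega : 0 < k)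
  refine ⟨γ ^ 2 * c / (γ + 2 * k), by positivity, 4 * k + 4, ?_⟩
  intro n hn F hF s hs1 hs2 hFc S hS1 hS2
  set g : ℝ := γ ^ 2 * c / (γ + 2 * k) with hg
  have hg0 : 0 < g := by rw [hg]; positivity
  have hkj : k = j + 1 := by omega
  have hcount := counting k (by omega) F hF S
  have hsn : 2 * s ≤ n := by
    have : (40 * 2 + 39) * s ≤ (40 * k + 39) * s := Nat.mul_le_mul_right _ (by omega)
    omega
  have hSn : S.card ≤ n := by simpa using card_le_univ S
  have hn0 : (0 : ℝ) < n := by exact_mod_cast (by omega : 0 < n)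
  have hnj : (0 : ℝ) < (n : ℝ) ^ j := by positivity
  -- lower bounds
  have l1 : c * (n : ℝ) ^ j ≤ (((n - s).choose j : ℕ) : ℝ) := by
    have := chlow n j (n - s) (by omega)
    refine le_trans (le_of_eq ?_) this
    rw [hc, div_pow, div_pow, one_pow]; field_simp
  have l2 : c * (n : ℝ) ^ j ≤ (((n - 1).choose (k - 1) : ℕ) : ℝ) := by
    have := chlow n j (n - 1) (by omega)
    refine le_trans (le_of_eq ?_) this
    rw [hc, div_pow, div_pow, one_pow]; field_simp
  have hnk : (n : ℝ) ^ k = n * (n : ℝ) ^ j := by rw [hkj, pow_succ]; ring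
  -- the number of edges
  have hFc' : ((n.choose k : ℕ) : ℝ) - (((n - s).choose k : ℕ) : ℝ) ≤ (F.card : ℝ) := by
    have : n.choose k ≤ F.card + (n - s).choose k := by omega
    have h' : ((n.choose k : ℕ) : ℝ) ≤ (F.card : ℝ) + (((n - s).choose k : ℕ) : ℝ) := by exact_mod_cast this
    linarith
  set D : ℝ := (((n - s).choose k : ℕ) : ℝ) - (((n - S.card).choose k : ℕ) : ℝ) with hD
  have hmain : ∑ v ∈ S, ((((n - 1).choose (k - 1) : ℕ) : ℝ) - (dg F v : ℝ)) ≤
      k * (D + g * (n : ℝ) ^ k) := by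
    refine hcount.trans (mul_le_mul_of_nonneg_left ?_ hk0.le)
    linarith
  have hMv : ∀ v : Fin n, (0 : ℝ) ≤ (((n - 1).choose (k - 1) : ℕ) : ℝ) - (dg F v : ℝ) := by
    intro v
    have h := card_mem (n := n) k (by omega) v
    have h2 : dg F v ≤ (n - 1).choose (k - 1) := by
      rw [← h, dg]
      apply card_le_card
      intro e he
      rw [mem_filter] at he ⊢
      refine ⟨?_, he.2⟩
      rw [mem_powersetCard]
      exact ⟨subset_univ _, hF e he.1⟩
    have : (dg F v : ℝ) ≤ (((n - 1).choose (k - 1) : ℕ) : ℝ) := by exact_mod_cast h2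
    linarith
  have hsum0 : (0 : ℝ) ≤ ∑ v ∈ S, ((((n - 1).choose (k - 1) : ℕ) : ℝ) - (dg F v : ℝ)) :=
    sum_nonneg fun v _ => hMv v
  have hDlow : 0 ≤ D + g * (n : ℝ) ^ k := by
    by_contra hcon
    push Not at hcon
    have := mul_neg_of_pos_of_neg hk0 hcon
    linarith
  -- D ≤ g n^k and S.card ≥ s - g n / c
  have hDS : D ≤ g * (n : ℝ) ^ k ∧ (s : ℝ) - g * n / c ≤ (S.card : ℝ) := by
    rcases le_total S.card s with h | h
    · have ht := (tele j (n - s) (n - S.card) (by omega)).1
      rw [← hkj] at ht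
      have hd : D ≤ 0 := by
        have : (n - s).choose k ≤ (n - S.card).choose k := Nat.choose_le_choose k (by omega)
        have h' : (((n - s).choose k : ℕ) : ℝ) ≤ (((n - S.card).choose k : ℕ) : ℝ) := by exact_mod_cast this
        rw [hD]; linarith
      refine ⟨hd.trans (by positivity), ?_⟩
      have hdiff : (((n - S.card : ℕ) : ℝ) - ((n - s : ℕ) : ℝ)) = (s : ℝ) - S.card := by
        rw [Nat.cast_sub hSn, Nat.cast_sub (by omega)]; ring
      rw [hdiff] at ht
      have h0 : (0 : ℝ) ≤ (s : ℝ) - S.card := by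
        have : (S.card : ℝ) ≤ s := by exact_mod_cast h
        linarith
      have h1 : ((s : ℝ) - S.card) * (c * (n : ℝ) ^ j) ≤ g * (n * (n : ℝ) ^ j) := by
        calc ((s : ℝ) - S.card) * (c * (n : ℝ) ^ j) ≤ ((s : ℝ) - S.card) * (((n - s).choose j : ℕ) : ℝ) :=
              mul_le_mul_of_nonneg_left l1 h0
          _ ≤ -D := by rw [hD]; linarith
          _ ≤ g * (n * (n : ℝ) ^ j) := by rw [← hnk]; linarith
      have h2 : ((s : ℝ) - S.card) * c ≤ g * n := by
        have : (((s : ℝ) - S.card) * c) * (n : ℝ) ^ j ≤ (g * n) * (n : ℝ) ^ j := by nlinarith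
        exact le_of_mul_le_mul_right this hnj
      have h3 : (s : ℝ) - S.card ≤ g * n / c := by
        rw [le_div_iff₀ hc0]; exact h2
      linarith
    · have ht := (tele j (n - S.card) (n - s) (by omega)).2
      rw [← hkj] at ht
      have hdiff : (((n - s : ℕ) : ℝ) - ((n - S.card : ℕ) : ℝ)) = (S.card : ℝ) - s := by
        rw [Nat.cast_sub hSn, Nat.cast_sub (by omega)]; ring
      rw [hdiff] at ht
      have hub : (((n - s).choose j : ℕ) : ℝ) ≤ (n : ℝ) ^ j := by
        have h1 : (n - s).choose j ≤ (n - s) ^ j := Nat.choose_le_pow _ _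
        have h2 : (n - s) ^ j ≤ n ^ j := Nat.pow_le_pow_left (by omega) j
        exact_mod_cast h1.trans h2
      have h0 : (0 : ℝ) ≤ (S.card : ℝ) - s := by
        have : (s : ℝ) ≤ S.card := by exact_mod_cast h
        linarith
      constructor
      · calc D ≤ ((S.card : ℝ) - s) * (((n - s).choose j : ℕ) : ℝ) := by rw [hD]; linarith
          _ ≤ (g * n) * (n : ℝ) ^ j := by
            apply mul_le_mul (by linarith) hub (by positivity) (by positivity)
          _ = g * (n : ℝ) ^ k := by rw [hnk]; ring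
      · have : (0 : ℝ) ≤ g * n / c := by positivity
        linarith
  obtain ⟨hD1, hS3⟩ := hDS
  have htot : ∑ v ∈ S, ((((n - 1).choose (k - 1) : ℕ) : ℝ) - (dg F v : ℝ)) ≤ 2 * k * g * (n : ℝ) ^ k := by
    refine hmain.trans ?_
    have : D + g * (n : ℝ) ^ k ≤ 2 * g * (n : ℝ) ^ k := by linarith
    have := mul_le_mul_of_nonneg_left this hk0.le
    linarith
  -- bad vertices
  set B := S.filter (fun v => ¬ (1 - γ) * (((n - 1).choose (k - 1) : ℕ) : ℝ) ≤ (dg F v : ℝ)) with hB
  have hBc : (B.card : ℝ) * (γ * (((n - 1).choose (k - 1) : ℕ) : ℝ)) ≤ 2 * k * g * (n : ℝ) ^ k := by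
    refine le_trans ?_ htot
    calc (B.card : ℝ) * (γ * (((n - 1).choose (k - 1) : ℕ) : ℝ))
        = ∑ v ∈ B, (γ * (((n - 1).choose (k - 1) : ℕ) : ℝ)) := by rw [sum_const, nsmul_eq_mul]
      _ ≤ ∑ v ∈ B, ((((n - 1).choose (k - 1) : ℕ) : ℝ) - (dg F v : ℝ)) := by
        apply sum_le_sum
        intro v hv
        have := (mem_filter.1 hv).2
        push Not at this
        linarith
      _ ≤ _ := sum_le_sum_of_subset_of_nonneg (filter_subset _ _) fun v _ _ => hMv v
  have hBc2 : (B.card : ℝ) ≤ 2 * k * g * n / (γ * c) := by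
    rw [le_div_iff₀ (by positivity)]
    have h1 : (B.card : ℝ) * (γ * (c * (n : ℝ) ^ j)) ≤ 2 * k * g * (n * (n : ℝ) ^ j) := by
      rw [← hnk]
      refine le_trans ?_ hBc
      apply mul_le_mul_of_nonneg_left _ (Nat.cast_nonneg _)
      exact mul_le_mul_of_nonneg_left l2 hγ.le
    have : ((B.card : ℝ) * (γ * c)) * (n : ℝ) ^ j ≤ (2 * k * g * n) * (n : ℝ) ^ j := by nlinarith
    exact le_of_mul_le_mul_right this hnj
  have hfin : (S.card : ℝ) ≤ ((univ.filter (fun v : Fin n =>
      (1 - γ) * (((n - 1).choose (k - 1) : ℕ) : ℝ) ≤ (dg F v : ℝ))).card : ℝ) + (B.card : ℝ) := by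
    have h1 := Finset.card_filter_add_card_filter_not (s := S)
      (fun v : Fin n => (1 - γ) * (((n - 1).choose (k - 1) : ℕ) : ℝ) ≤ (dg F v : ℝ))
    have h2 : (S.filter (fun v : Fin n => (1 - γ) * (((n - 1).choose (k - 1) : ℕ) : ℝ) ≤ (dg F v : ℝ))).card ≤
        (univ.filter (fun v : Fin n => (1 - γ) * (((n - 1).choose (k - 1) : ℕ) : ℝ) ≤ (dg F v : ℝ))).card :=
      card_le_card (filter_subset_filter _ (subset_univ _))
    have : S.card ≤ (univ.filter (fun v : Fin n =>
      (1 - γ) * (((n - 1).choose (k - 1) : ℕ) : ℝ) ≤ (dg F v : ℝ))).card + B.card := by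
      rw [← h1]; exact Nat.add_le_add_right h2 _
    exact_mod_cast this
  have hg2 : g * (γ + 2 * k) = γ ^ 2 * c := by
    have hne : γ + 2 * (k : ℝ) ≠ 0 := by positivity
    rw [hg]; exact div_mul_cancel₀ _ hne
  clear_value g c
  have hgs : g * n / c + 2 * k * g * n / (γ * c) = γ * n := by
    have e1 : g * n / c + 2 * k * g * n / (γ * c) = (g * (γ + 2 * k)) * n / (γ * c) := by
      field_simp
    rw [e1, hg2]; field_simp
  linarith

end Pool.Agent.W735.SAM.DI3
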